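import Pool.Agent.H73.Gain2

set_option autoImplicit false

namespace Pool.Agent.Results.MP_682a55_lc.Undecidable

open Pool.Agent.H73.Gain

universe u

/-- For every infinite group the monadic theory of rank-3 gain-graphic matroids is undecidable. -/
theorem result (H : Type u) [Group H] [Infinite H] :
    ¬ ∃ f : ℕ → Bool, Computable f ∧
      ∀ φ : Fm, φ.free = ∅ → (f φ.code = true ↔ InTheory H φ) :=
  main H

end Pool.Agent.Results.MP_682a55_lc.Undecidable
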